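import Pool.Agent.Lib.MP_acafa7_al.MS.Iface1

/-! Module AddH of the MSA board (MP_acafa7_al, helper97): adding a hair. -/

namespace MSG.H97

open Classical

section
variable {D : Type}

/-- the new face permutation -/
noncomputable def hairPhi (φ : Equiv.Perm D) (r : D) : Equiv.Perm (D ⊕ Bool) where
  toFun := Sum.elim (fun x => if φ x = r then Sum.inr false else Sum.inl (φ x))
    (fun b => if b then Sum.inl r else Sum.inr true)
  invFun := Sum.elim (fun x => if x = r then Sum.inr true else Sum.inl (φ.symm x))
    (fun b => if b then Sum.inr false else Sum.inl (φ.symm r))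
  left_inv := by
    rintro (x | b)
    · by_cases hx : φ x = r
      · subst hx; simp
      · simp [hx]
    · cases b <;> simp
  right_inv := by
    rintro (x | b)
    · by_cases hx : x = r
      · simp [hx]
      · simp [hx]
    · cases b <;> simp

/-- the new edge involution -/
def hairIota (ι : Equiv.Perm D) : Equiv.Perm (D ⊕ Bool) where
  toFun := Sum.elim (fun x => Sum.inl (ι x)) (fun b => Sum.inr (!b))
  invFun := Sum.elim (fun x => Sum.inl (ι.symm x)) (fun b => Sum.inr (!b))
  left_inv := by rintro (x | b) <;> simp
  right_inv := by rintro (x | b) <;> simp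

variable {V : Type} {a : Equiv.Perm V}

/-- the map with a hair -/
noncomputable def hairMap (M : LMap V D a) (r : D) (y : V) : LMap V (D ⊕ Bool) a where
  φ := hairPhi M.φ r
  ι := hairIota M.ι
  ιι := by
    rintro (x | b)
    · simp [hairIota, M.ιι]
    · simp [hairIota]
  ne := by
    rintro (x | b)
    · simp [hairIota, M.ne]
    · simp [hairIota]
  f := Sum.elim M.f (fun b => if b then y else M.f r)
  γ := Sum.elim M.γ (fun _ => 0)
  h := Sum.elim M.h (fun _ => 0)
  γι := by
    rintro (x | b)
    · simp [hairIota, M.γι]
    · simp [hairIota]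
  tgt := by
    rintro (x | b)
    · have := M.tgt x
      by_cases hx : M.φ x = r
      · simp [hairIota, hairPhi, hx, this]
      · simp [hairIota, hairPhi, hx, this]
    · cases b <;> simp [hairIota, hairPhi]

end

theorem addh : AddHStatement := by
  intro V D _ a M r y
  refine ⟨D ⊕ Bool, inferInstance, hairMap M r y, Sum.inl, Sum.inr false, Sum.inr true,
    Sum.inl_injective, by simp, by simp, ?_, ?_, ?_, ?_, ?_, ?_, ?_, ?_, ?_, ?_, ?_, ?_, ?_⟩
  · rintro (x | b)
    · exact Or.inr (Or.inr ⟨x, rfl⟩)
    · cases b <;> simp
  · intro x; simp [hairMap, hairPhi]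
  · simp [hairMap, hairPhi]
  · simp [hairMap, hairPhi]
  · intro x; simp [hairMap, hairIota]
  · simp [hairMap, hairIota]
  · intro x; simp [hairMap]
  · simp [hairMap]
  · simp [hairMap]
  · simp [hairMap]
  · simp [hairMap]
  · simp [hairMap]
  · intro hP k' hk'
    have hn := hk' (Sum.inr false)
    simp only [hairMap, hairPhi, hairIota, Equiv.coe_fn_mk, Sum.elim_inr, Bool.not_false,
      if_true, Bool.false_eq_true, if_false] at hn
    have h1 : k' (Sum.inr false) = k' (Sum.inl r) := by
      have h2 : k' (Sum.inl r) + k' (Sum.inr true) + k' (Sum.inr true) =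
        k' (Sum.inr true) + k' (Sum.inr false) + k' (Sum.inr true) := by rw [hn]
      have e1 : k' (Sum.inr true) + k' (Sum.inr true) = 0 := CharTwo.add_self_eq_zero _
      linear_combination -h2 + (0 : ZMod 2) * e1
    have key : ∀ x, k' (hairPhi M.φ r (Sum.inl x)) = k' (Sum.inl (M.φ x)) := by
      intro x
      by_cases hx : M.φ x = r
      · simp [hairPhi, hx, h1]
      · simp [hairPhi, hx]
    obtain ⟨h, hh1, hh2⟩ := hP (fun x => k' (Sum.inl x)) (by
      intro d
      have := hk' (Sum.inl d)
      simp only [hairMap] at this
      rw [key] at this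
      simp only [hairIota, Equiv.coe_fn_mk, Sum.elim_inl] at this
      rw [key] at this
      exact this)
    refine ⟨Sum.elim h (fun b => if b then k' (Sum.inr false) + h r + k' (Sum.inr true) else h r),
      ?_, ?_⟩
    · rintro (x | b)
      · by_cases hx : M.φ x = r
        · simp [hairMap, hairIota, hairPhi, hx, ← hh1]
        · simp [hairMap, hairIota, hairPhi, hx, ← hh1]
      · cases b <;> simp [hairMap, hairIota, hairPhi]
    · rintro (x | b)
      · have := hh2 x
        by_cases hx : M.φ x = r
        · rw [hx] at this
          simp [hairMap, hairPhi, hx, h1, this]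
        · simp [hairMap, hairPhi, hx, this]
      · have e1 : k' (Sum.inr true) + k' (Sum.inr true) = 0 := CharTwo.add_self_eq_zero _
        cases b
        · simp [hairMap, hairPhi]
          linear_combination e1
        · simp [hairMap, hairPhi]
          linear_combination -h1 - e1

end MSG.H97
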