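import Pool.Agent.Lib.MP_acafa7_al.MS.Iface1

/-! Module Close of the MSA board (MP_acafa7_al, helper97): closing a digon. -/

namespace MSG.H97

open Classical

theorem wkA_length {V D : Type} {a : Equiv.Perm V} (M : LMap V D a) (s : ℤ) (l : List D) :
    (M.wkA s l).length = l.length := by
  induction l generalizing s with
  | nil => rfl
  | cons r l ih => simp [LMap.wkA, ih]

theorem wsum_compl {V D : Type} [Fintype D] {a : Equiv.Perm V} (M : LMap V D a) (R : List D)
    (ω : V → V → V → ZMod 2) :
    M.wsum {d | d ∈ R} ω =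
      ∑ x : {d : D // d ∉ R}, ω (M.f x.1) (M.f (M.φ x.1)) (M.f (M.φ (M.φ x.1))) := by
  rw [LMap.wsum]
  have h1 : ∀ d : D, (if d ∈ {d | d ∈ R} then 0 else ω (M.f d) (M.f (M.φ d)) (M.f (M.φ (M.φ d))))
      = if d ∉ R then ω (M.f d) (M.f (M.φ d)) (M.f (M.φ (M.φ d))) else 0 := by
    intro d
    by_cases hd : d ∈ R
    · simp [hd]
    · simp [hd]
  have h2 := Finset.sum_congr (s₁ := (Finset.univ : Finset D)) rfl (fun d _ => h1 d)
  refine Eq.trans ?_ (h2.trans ?_)
  · apply Finset.sum_congr rfl
    intro d _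
    congr
  rw [← Finset.sum_filter]
  exact (Finset.sum_subtype_eq_sum_filter (s := Finset.univ)
    (f := fun d => ω (M.f d) (M.f (M.φ d)) (M.f (M.φ (M.φ d)))) (p := fun d => d ∉ R)).symm
    |>.trans (by simp [Finset.subtype_univ])

theorem close (hzip : ZipStatement) : CloseStatement := by
  intro V D _ X a hfree M R Y ω x y hP hA hW
  obtain ⟨hF, c, hw, hc⟩ := hW
  obtain ⟨d, e, rfl⟩ : ∃ d e, R = [d, e] := by
    have hl : (M.wk R).length = 3 := by rw [hw]; simp
    match R, hF, hl with
    | [], hF, _ => exact absurd rfl hF.1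
    | [r], _, hl => simp [LMap.wk, wkA_length] at hl
    | [d, e], _, _ => exact ⟨d, e, rfl⟩
    | _ :: _ :: _ :: l, _, hl => simp [LMap.wk, wkA_length] at hl
  obtain ⟨-, hnd, hrot⟩ := hF
  have hde : d ≠ e := by
    intro h; simp [h] at hnd
  have hrot' : M.φ d = e ∧ M.φ e = d := by
    simpa using hrot
  obtain ⟨h1, h2⟩ := hrot'
  have hback : (a ^ M.h d) (M.t (M.φ d)) = M.f d := by
    simp only [LMap.wk, LMap.wkA, List.map_cons, List.map_nil, List.cons.injEq, zero_add,
      and_true] at hw
    rw [h1, hw.2.2, hw.1]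
  obtain ⟨D', inst, M', j, hj, him, hφ, hι, hf, hγ, hh, hpl⟩ :=
    hzip V D a M d (by rw [h1]; exact hde.symm) hback
  rw [h1] at him hφ hι hγ hh
  have hne : ∀ z : D', M.φ (j z) ≠ d := by
    intro z hz
    have := (him (j z)).1 ⟨z, rfl⟩
    apply this.2
    apply M.φ.injective
    rw [hz, h2]
  have hφ' : ∀ z, j (M'.φ z) = M.φ (j z) := by
    intro z; rw [hφ z, if_neg (hne z)]
  have hh' : ∀ z, M'.h z = M.h (j z) := by
    intro z; rw [hh z, if_neg (hne z)]
  have ht : ∀ z, M'.t z = M.t (j z) := by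
    intro z
    rw [LMap.t, LMap.t, M'.tgt, M.tgt, hh', hf, hφ']
  have hmem : ∀ z : D', j z ∉ [d, e] := by
    intro z hz
    have := (him (j z)).1 ⟨z, rfl⟩
    simp only [List.mem_cons, List.not_mem_nil, or_false] at hz
    tauto
  let E : D' ≃ {z : D // z ∉ [d, e]} := Equiv.ofBijective (fun z => ⟨j z, hmem z⟩)
    ⟨fun z z' hzz => hj (congrArg Subtype.val hzz), fun z => by
      obtain ⟨z', hz'⟩ := (him z.1).2 (by
        have := z.2
        simp only [List.mem_cons, List.not_mem_nil, or_false, not_or] at this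
        exact this)
      exact ⟨z', Subtype.ext hz'⟩⟩
  have hE : ∀ z, (E z).1 = j z := fun z => rfl
  have hE' : ∀ z, j (E.symm z) = z.1 := fun z => by rw [← hE, Equiv.apply_symm_apply]
  refine ⟨D', inst, M', hpl hP, ?_, ?_, ?_⟩
  · intro z
    rw [ht, hf]
    exact hA (j z)
  · refine ⟨E.symm, E.symm.injective, by simp, ?_, ?_, ?_, ?_⟩
    · intro z z' hzz
      apply hj
      rw [hφ', hE', hE', hzz]
    · intro z
      rw [hf, hh', hE']
      exact ⟨rfl, rfl⟩
    · intro d' _ hd'
      exact absurd (E.symm_apply_apply d') (hd' (E d'))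
    · have h3 : Fintype.card D' = Fintype.card {z : D // z ∉ [d, e]} := Fintype.card_congr E
      have h4 : Fintype.card {z : D // z ∉ [d, e]} = Fintype.card D - Fintype.card {z : D // z ∈ [d, e]} := by
        exact Fintype.card_subtype_compl _
      have h5 : Fintype.card {z : D // z ∈ [d, e]} = 2 := by
        rw [Fintype.card_subtype]
        have : (Finset.univ.filter (fun z => z ∈ [d, e])) = {d, e} := by
          ext z; simp
        rw [this, Finset.card_pair hde]
      have h6 : Fintype.card {z : D // z ∈ [d, e]} ≤ Fintype.card D := Fintype.card_subtype_le _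
      simp only [List.length_cons, List.length_nil]
      omega
  · intro hZ
    refine ⟨?_, ?_, ?_⟩
    · intro z
      have := hγ z
      rw [hh', (hZ _).2, this]
      simp only [(hZ _).2, (hZ _).1]
      simp
    · intro hY z
      rw [hf]; exact hY _
    · rw [wsum_compl, LMap.wsum, ← Equiv.sum_comp E]
      apply Finset.sum_congr rfl
      intro z _
      simp [hE, hf, hφ']

end MSG.H97
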