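import Pool.Agent.Lib.MP_acafa7_al.MS.Iface1

/-! Module Fill of the MSA board (MP_acafa7_al, helper97): Lemma 3.1, filling a face. -/

namespace MSG.H97

open Classical

theorem rel_congr {V D D' : Type} [Fintype D] [Fintype D'] {a : Equiv.Perm V} (M : LMap V D a)
    (M' : LMap V D' a) (R S : List D) (R' : List D') (n : ℕ) (hRS : ∀ d, d ∈ R ↔ d ∈ S)
    (hl : R.length = S.length) (h : M.Rel R M' R' n) : M.Rel S M' R' n := by
  obtain ⟨j, h1, h2, h3, h4, h5, h6⟩ := h
  refine ⟨fun x => j ⟨x.1, fun hx => x.2 ((hRS _).1 hx)⟩, ?_, ?_, ?_, ?_, ?_, ?_⟩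
  · intro x y hxy
    have h := h1 hxy
    simp only [Subtype.mk.injEq] at h
    exact Subtype.ext h
  · intro x; exact h2 _
  · intro x y hxy
    exact h3 _ _ hxy
  · intro x; exact h4 _
  · intro d' hd' hx
    apply h5 d' hd'
    intro x
    exact hx ⟨x.1, fun hx' => x.2 ((hRS _).2 hx')⟩
  · rw [← hl]; exact h6

theorem fill_aux (hstep : StepStatement) (hclose : CloseStatement) (hrot : RotStatement)
    (htrans : RelTransStatement) {V : Type} (X : Cx V) (a : Equiv.Perm V) (hfree : FreeAut X a)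
    (Y : Set V) (ω : V → V → V → ZMod 2) (hC : Cocyc X.G Y ω) (w : List V) (e : ZMod 2) (n : ℕ)
    (hN : NulP X.G Y ω w e n) : ∀ (D : Type) [Fintype D] (M : LMap V D a) (R : List D),
    M.Planar → M.AdjM X.G → M.HasWalk R w →
    ∃ (D' : Type) (_ : Fintype D') (M' : LMap V D' a), M'.Planar ∧ M'.AdjM X.G ∧ M.Rel R M' [] n ∧
    (M.Zero → M'.Zero ∧ ((∀ d, M.f d ∈ Y) → ∀ d, M'.f d ∈ Y) ∧
      M'.wsum ∅ ω = M.wsum {d | d ∈ R} ω + e) := by
  induction hN with
  | base x y hxy =>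
    intro D _ M R hP hA hW
    obtain ⟨D', i, M', h1, h2, h3, h4⟩ := hclose V D X a hfree M R Y ω x y hP hA hW
    exact ⟨D', i, M', h1, h2, h3, fun hZ => ⟨(h4 hZ).1, (h4 hZ).2.1, by
      rw [(h4 hZ).2.2, add_zero]⟩⟩
  | rot x y l e n hlast _ ih =>
    intro D _ M R hP hA hW
    have h0 := hrot V D X a hfree M R x y l 0 hW (by simpa using hlast)
    have h1 : M.HasWalk (R.rotate 1) (y :: (l ++ [y])) := by simpa using h0.1
    obtain ⟨D', i, M', g1, g2, g3, g4⟩ := ih D M (R.rotate 1) hP hA h1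
    have hmem : ∀ d, d ∈ R.rotate 1 ↔ d ∈ R := fun d => List.mem_rotate
    refine ⟨D', i, M', g1, g2, rel_congr M M' _ _ _ _ hmem (by simp) g3, fun hZ => ?_⟩
    have hset : {d | d ∈ R.rotate 1} = {d | d ∈ R} := Set.ext hmem
    have := g4 hZ
    rw [hset] at this
    exact this
  | stp w w' e e' n hs hl _ ih =>
    intro D _ M R hP hA hW
    obtain ⟨D', i', M', R', k1, k2, k3, k4, k5⟩ :=
      hstep V D X a hfree M R Y ω w w' e hC hP hA hW hs hl
    obtain ⟨D'', i'', M'', g1, g2, g3, g4⟩ := ih D' M' R' k2 k3 k1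
    refine ⟨D'', i'', M'', g1, g2, ?_, ?_⟩
    · rw [add_comm]
      exact htrans V D D' D'' a M M' M'' R R' [] _ _ (Or.inr hW.1) (Or.inr k1.1) k4 g3
    · intro hZ
      obtain ⟨a1, a2, a3⟩ := k5 hZ
      obtain ⟨b1, b2, b3⟩ := g4 a1
      refine ⟨b1, fun hY => b2 (a2 hY), ?_⟩
      rw [b3, a3, add_assoc]

theorem fill (hstep : StepStatement) (hclose : CloseStatement) (hrot : RotStatement)
    (htrans : RelTransStatement) : FillStatement := by
  intro V D _ X a hfree M R Y ω w e n hC hP hA hW hN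
  exact fill_aux hstep hclose hrot htrans X a hfree Y ω hC w e n hN D M R hP hA hW

end MSG.H97
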